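import Pool.Agent.Helper3.T5b.MidCore
import Pool.Agent.Helper96.T5b.MNs
import Pool.Agent.Helper45.T5b.Mid5
import Pool.Agent.Helper57.T5b.Last
import Pool.Agent.Helper75.T5b.Up
import Pool.Agent.Helper29.T5b.Free
import Pool.Agent.Helper84.T5b.Top

/-!
# T5b, line 8 (CaseMid): the block from the number
-/

set_option autoImplicit false

namespace Pool.Agent.Helper3.T5b

open Finset Pool.Agent.Helper27.T4 Pool.Agent.Helper84.T5b Pool.Agent.Helper37.T5b
  Pool.Agent.Helper30.T5b Pool.Agent.Helper22.HW Pool.Agent.Helper22.SL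
open Pool.Agent.Helper5.ET (bb era)
open Pool.Agent.Helper3.T5
open Pool.Agent.Helper42.T5.Pr (PrLe PrLe_mono)

/-- P3: the number of line 8 -/
def MidNumStmt (m k : ℕ) : Prop := ∃ l0 : ℕ, ∀ l' l, l0 ≤ l' → l' ≤ l → Near m k l' l →
  Same m k l' l → 7 * SS m (sL m k l) ≤ 20 * (l - l') → l - l' < 200 * SS m (sL m k l) →
  ∀ E1 : ℕ, (E1 : ℝ) ≤ Pool.Agent.Helper45.T5b.FE m k l' l →
    E1 * ((MNs m k l' l).C * MP.Lam0 (MNs m k l' l) *
      (((MNs m k l' l).Ne' : ℝ) / (MNs m k l' l).Ne + 1 / (MNs m k l' l).q)) ≤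
    Real.exp (-((SS m (sL m k l) : ℝ) / 50))

variable {m k : ℕ}

/-- the number of targets and the fresh modulus are at most exponential -/
theorem exists_size (hm : 0 < m) (k : ℕ) : ∃ (A : ℝ) (l0 : ℕ), 0 ≤ A ∧ ∀ l' l, l0 ≤ l' → l' ≤ l →
    ((34 * NL m k l : ℕ) : ℝ) * ((MNs m k l' l).q : ℝ) ^ 2 ≤ Real.exp (A * l) := by
  obtain ⟨l1, h1⟩ := Pool.Agent.Helper27.T5b.exists_bL hm k 0
  obtain ⟨l2, h2⟩ := exists_late (m := m) (k := k) hm 0 0
  have hR : (1 : ℝ) ≤ RT m k k := by exact_mod_cast RT_pos m k k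
  have hB : (1 : ℝ) ≤ BP k := by exact_mod_cast BP_pos k
  refine ⟨Real.log (34 * (RT m k k : ℝ) ^ 3) + 6 * Real.log (BP k), l1 + l2 + 1, ?_, ?_⟩
  · have a1 : 0 ≤ Real.log (34 * (RT m k k : ℝ) ^ 3) := by
      apply Real.log_nonneg
      have := one_le_pow₀ (n := 3) hR
      linarith
    have a2 := Real.log_nonneg hB
    positivity
  intro l' l hl' hll
  obtain ⟨hbb, -⟩ := h1 l (by omega)
  obtain ⟨-, hbb0, hk, -, h5⟩ := h2 l (by omega)
  have hS : SS m (sL m k l) ≤ l := by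
    have h6 := SS_sv_succ_le' hm hbb0 hk
    have h7 : SS m (sL m k l) ≤ SS m (sL m k l + 1) := SS_mono m (Nat.le_succ _)
    have h8 : mL m k l ≤ l := Pool.Agent.Helper27.T5b.l1_le (ins m k) l
    exact h7.trans (h6.trans h8)
  have hef : ef m k l 0 ≤ 2 * l := by
    have := (Pool.Agent.Helper27.T5b.ef_bounds hm k l 0).2.2
    omega
  have hNL : ∀ y, y ≤ 2 * l → (NL m k y : ℝ) ≤ RT m k k * (BP k : ℝ) ^ (2 * l) := by
    intro y hy
    have a1 : NL m k y ≤ RT m k k * BP k ^ (2 * l) :=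
      (NL_mono m k hy).trans (NL_le_pow m k (2 * l))
    exact_mod_cast a1
  have hq : ((MNs m k l' l).q : ℝ) ≤ RT m k k * (BP k : ℝ) ^ (2 * l) := by
    have a1 : (MNs m k l' l).q ∣ FF m k l 0 := pow_dvd_NN (pJ k (sL m k l)) _ _
    have a2 : (MNs m k l' l).q ≤ NL m k (ef m k l 0) := by
      rw [← Pool.Agent.Helper27.T5b.FF_mul_RT (k := k) hm hbb 0]
      refine (Nat.le_of_dvd (Pool.Agent.Helper27.T5b.FF_pos _ _ _ _) a1).trans ?_
      exact Nat.le_mul_of_pos_right _ (RT_pos _ _ _)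
    have a3 : ((MNs m k l' l).q : ℝ) ≤ NL m k (ef m k l 0) := by exact_mod_cast a2
    exact a3.trans (hNL _ hef)
  have hl1 : (1 : ℝ) ≤ l := by exact_mod_cast (show 1 ≤ l by omega)
  set X : ℝ := RT m k k * (BP k : ℝ) ^ (2 * l) with hX
  have hX0 : 0 ≤ X := by positivity
  have e1 : ((34 * NL m k l : ℕ) : ℝ) * ((MNs m k l' l).q : ℝ) ^ 2 ≤ 34 * X * X ^ 2 := by
    push_cast
    refine mul_le_mul (mul_le_mul_of_nonneg_left (hNL l (by omega)) (by norm_num))
      (pow_le_pow_left₀ (Nat.cast_nonneg _) hq 2) (by positivity) (by positivity)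
  refine e1.trans ?_
  have hR0 : (0 : ℝ) < RT m k k := by linarith
  have hB0 : (0 : ℝ) < BP k := by linarith
  have e2 : 34 * X * X ^ 2 = (34 * (RT m k k : ℝ) ^ 3) * (BP k : ℝ) ^ (6 * l) := by
    rw [hX, show 6 * l = 2 * l + 2 * l + 2 * l by ring, pow_add, pow_add]
    ring
  have e3 : (BP k : ℝ) ^ (6 * l) = Real.exp (6 * Real.log (BP k) * l) := by
    rw [← Real.exp_log (show (0 : ℝ) < (BP k : ℝ) ^ (6 * l) by positivity), Real.log_pow]
    congr 1
    push_cast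
    ring
  have e4 : 34 * (RT m k k : ℝ) ^ 3 ≤ Real.exp (Real.log (34 * (RT m k k : ℝ) ^ 3) * l) := by
    have a1 : 0 ≤ Real.log (34 * (RT m k k : ℝ) ^ 3) := by
      apply Real.log_nonneg
      have := one_le_pow₀ (n := 3) hR
      linarith
    calc 34 * (RT m k k : ℝ) ^ 3 = Real.exp (Real.log (34 * (RT m k k : ℝ) ^ 3)) :=
          (Real.exp_log (by positivity)).symm
      _ ≤ _ := Real.exp_le_exp.2 (by nlinarith)
  rw [e2, e3, add_mul, Real.exp_add]
  exact mul_le_mul_of_nonneg_right e4 (Real.exp_pos _).le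

/-- line 8 for one `m` and any `k` -/
theorem mid_gen (hm2 : 2 ≤ m) (hk1 : 1 ≤ k) (hnum : MidNumStmt m k) :
    ∃ (K0 : ℕ) (C1 c0 m' : ℝ), 0 ≤ C1 ∧ 0 < c0 ∧ 0 ≤ m' ∧
    ∀ l l', K0 ≤ l' → l' ≤ l → CaseMid m k l' l →
    ∀ K : Finset Key, Pool.Agent.Helper84.T5b.keysOf m k l ⊆ K →
      Pool.Agent.Helper84.T5b.keysOf m k l' ⊆ K →
    PrLe (Pool.Agent.Helper84.T5b.Mk m k) K
      (fun w => ∃ c, FreeC m k l l' w c ∧ C1 * (l : ℝ) ^ (((2 : ℕ) : ℝ) / (m : ℝ)) < (c : ℝ))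
      (m' * Real.exp (-((l : ℝ) ^ c0))) := by
  have hm0 : 0 < m := by omega
  obtain ⟨ln, hn⟩ := hnum
  obtain ⟨lg, hg⟩ := Pool.Agent.Helper45.T5b.good_restM hm2 hk1
  obtain ⟨lo, ho⟩ := Pool.Agent.Helper96.T5b.MNs_ok hm2 k
  obtain ⟨lb, hb⟩ := Pool.Agent.Helper27.T5b.exists_bL hm0 k 0
  obtain ⟨lr, hr⟩ := Pool.Agent.Helper27.T5b.exists_AA_range hm0 k
  obtain ⟨A, la, hA0, hA⟩ := exists_size hm0 k
  obtain ⟨C, ls, hC0, hC⟩ := Pool.Agent.Helper75.T5b.exists_le_SS_sL hm0 k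
  obtain ⟨c0, lc, hc0, hc⟩ := Pool.Agent.Helper57.T5b.exists_le_SS_bL hm2 k
  refine ⟨ln + lg + lo + lb + lr + la + ls + lc + 1, 50 * (A + 1) * C, min c0 1, 2, by positivity,
    lt_min hc0 one_pos, by norm_num, ?_⟩
  intro l l' hl' hll hcase K hK hK'
  obtain ⟨hN, hS, h7, h200⟩ := hcase
  have hSp : 0 < SS m (sL m k l) := SS_pos m _
  have hlt : l' < l := by omega
  have hs : sL m k l' = sL m k l := hS
  have hM := ho l' l (by omega) hlt hN hS
  have hgood := hg l' l (by omega) hll hS K hK hK'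
  have hrho := hn l' l (by omega) hll hN hS h7 h200 ⌊Pool.Agent.Helper45.T5b.FE m k l' l⌋₊
    (Nat.floor_le (by unfold Pool.Agent.Helper45.T5b.FE; positivity))
  have hSr : (0 : ℝ) < SS m (sL m k l) := by exact_mod_cast hSp
  have hl1 : (1 : ℝ) ≤ l := by exact_mod_cast (show 1 ≤ l by omega)
  set mm : ℕ := ⌊50 * (A + 1) * l / SS m (sL m k l)⌋₊ with hmm
  have hmm1 : (mm : ℝ) ≤ 50 * (A + 1) * l / SS m (sL m k l) := Nat.floor_le (by positivity)
  have hmm2 : 50 * (A + 1) * l / SS m (sL m k l) < mm + 1 := Nat.lt_floor_add_one _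
  have hcore := mid_core (mm := mm) (n1 := 34 * NL m k l) hm0 (hb l (by omega)).1
    (hb l' (by omega)).1 hll hs hM hK hK' hgood (fun w n hne => by
      obtain ⟨q, hq⟩ := hne
      unfold Hts at hq
      rw [mem_filter, mem_product] at hq
      obtain ⟨⟨h1, h2⟩, h3⟩ := hq
      have a1 := (hr l (by omega) w (Pool.Agent.Helper84.T5b.val m k l w q.1) (by
        rw [AA_eq]
        exact mem_image_of_mem _ h1)).2.1
      have a2 := (hr l' (by omega) w (Pool.Agent.Helper84.T5b.val m k l' w q.2) (by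
        rw [AA_eq]
        exact mem_image_of_mem _ h2)).2.1
      have a3 := NL_mono m k hll
      omega) (Real.exp_pos _).le hrho
  refine PrLe_mono (fun r _ hw => ?_) ?_ (PrLe_of_PrG hcore)
  · obtain ⟨c, hc, hlt⟩ := hw
    refine ⟨c, hc, ?_⟩
    have h1 := hC l (by omega)
    have h2 : (mm : ℝ) ≤ 50 * (A + 1) * C * (l : ℝ) ^ (((2 : ℕ) : ℝ) / (m : ℝ)) := by
      refine hmm1.trans ?_
      rw [div_le_iff₀ hSr]
      push_cast
      calc 50 * (A + 1) * (l : ℝ)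
          ≤ 50 * (A + 1) * (C * (l : ℝ) ^ ((2 : ℝ) / (m : ℝ)) * SS m (sL m k l)) :=
            mul_le_mul_of_nonneg_left h1 (by positivity)
        _ = _ := by ring
    exact_mod_cast lt_of_le_of_lt h2 hlt
  · have e1 : Real.exp (-(SS m (sL m k l) : ℝ)) ≤ Real.exp (-((l : ℝ) ^ (min c0 1))) := by
      apply Real.exp_le_exp.2
      apply neg_le_neg
      have a1 : (SS m (bL m k l) : ℝ) ≤ SS m (sL m k l) := by
        exact_mod_cast SS_mono m (show bL m k l ≤ sL m k l by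
          have := (Pool.Agent.Helper27.T5b.rL_bounds hm0 k l).1
          omega)
      refine le_trans (Real.rpow_le_rpow_of_exponent_le hl1 (min_le_left _ _)) ?_
      exact (hc l (by omega)).trans a1
    have e2 : ((34 * NL m k l : ℕ) : ℝ) * (((MNs m k l' l).q : ℝ) ^ 2 *
        Real.exp (-((SS m (sL m k l) : ℝ) / 50)) ^ (mm + 1)) ≤
        Real.exp (-((l : ℝ) ^ (min c0 1))) := by
      have a1 := hA l' l (by omega) hll
      have a2 : Real.exp (-((SS m (sL m k l) : ℝ) / 50)) ^ (mm + 1) ≤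
          Real.exp (-((A + 1) * l)) := by
        rw [← Real.exp_nat_mul]
        apply Real.exp_le_exp.2
        rw [div_lt_iff₀ hSr] at hmm2
        push_cast
        have : (A + 1) * l ≤ ((mm : ℝ) + 1) * (SS m (sL m k l) / 50) := by linarith
        linarith
      rw [← mul_assoc]
      calc ((34 * NL m k l : ℕ) : ℝ) * ((MNs m k l' l).q : ℝ) ^ 2 *
          Real.exp (-((SS m (sL m k l) : ℝ) / 50)) ^ (mm + 1)
          ≤ Real.exp (A * l) * Real.exp (-((A + 1) * l)) :=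
            mul_le_mul a1 a2 (by positivity) (Real.exp_pos _).le
        _ = Real.exp (-(l : ℝ)) := by
            rw [← Real.exp_add]
            congr 1
            ring
        _ ≤ _ := by
            apply Real.exp_le_exp.2
            apply neg_le_neg
            calc (l : ℝ) ^ (min c0 1) ≤ (l : ℝ) ^ (1 : ℝ) :=
                  Real.rpow_le_rpow_of_exponent_le hl1 (min_le_right _ _)
              _ = l := Real.rpow_one _
    linarith

/-- **line 8**: free sets of hits -/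
theorem mid_free (hnum : ∃ m0 : ℕ, ∀ m, m0 ≤ m → MidNumStmt m (m ^ 2)) :
    Blk CaseMid FreeC := by
  obtain ⟨m0, hnum⟩ := hnum
  refine ⟨2, max m0 2, fun m hm => ?_⟩
  have hm2 : 2 ≤ m := (le_max_right _ _).trans hm
  exact mid_gen hm2 (Nat.one_le_pow _ _ (by omega)) (hnum m ((le_max_left _ _).trans hm))

theorem up_of_mid (hm : 0 < m) {l' l : ℕ} (h : CaseMid m k l' l) : CaseUp m k l' l := by
  obtain ⟨h1, h2, h3, h4⟩ := h
  refine ⟨h1, h2, ?_⟩
  have h5 := (Pool.Agent.Helper27.T5b.ef_bounds hm k l' 0).2.1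
  have h6 : sL m k l' = sL m k l := h2
  rw [h6, Nat.sub_zero] at h5
  have h7 : 0 < SS m (sL m k l) := SS_pos m _
  omega

/-- **line 8** from line 5 and the number -/
theorem mid_rpc (hnum : ∃ m0 : ℕ, ∀ m, m0 ≤ m → MidNumStmt m (m ^ 2)) (h5 : Blk CaseUp CstC) :
    Blk CaseMid RpC := by
  refine rpc_of_free (m0 := 1) (fun m k l' l h => h.1)
    (fun m hm => Pool.Agent.Helper29.T5b.freeStmt m (by omega)) ?_ (mid_free hnum)
  obtain ⟨E, m0, h⟩ := h5
  exact ⟨E, max m0 1, fun m hm => (h m ((le_max_left _ _).trans hm)).mono le_rfl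
    (fun l' l hl => up_of_mid (by have := (le_max_right m0 1).trans hm; omega) hl)
    (fun _ _ _ c hc => ⟨c, le_rfl, hc⟩)⟩

end Pool.Agent.Helper3.T5b
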