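import Pool.Agent.Helper3.T5b.Mid
import Pool.Agent.Helper18.T5b.MidNum
import Pool.Agent.Helper87.OUT2.Final

/-!
# T5b, line 8 (CaseMid): final statements
-/

set_option autoImplicit false

namespace Pool.Agent.Helper3.T5b

open Pool.Agent.Helper84.T5b

theorem midNum {m : ℕ} (hm : 2 ≤ m) (k : ℕ) : MidNumStmt m k := by
  obtain ⟨l0, h⟩ := Pool.Agent.Helper18.T5b.mid_rho hm k
  exact ⟨l0, fun l' l h1 h2 _ h3 h4 h5 E1 hE => h l' l h1 h2 h3 h4 h5 E1 hE⟩

/-- **line 8**, free sets of hits -/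
theorem mid_freeC : Blk CaseMid FreeC := mid_free ⟨2, fun _ hm => midNum hm _⟩

/-- **line 8** -/
theorem mid : Blk CaseMid RpC :=
  mid_rpc ⟨2, fun _ hm => midNum hm _⟩ Pool.Agent.Helper87.OUT2.blk_up

end Pool.Agent.Helper3.T5b
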